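import Pool.Agent.helper78.HFN.Spec

/-!
# Project HFN (MP_3221a1_ag), row CPR: greatest common divisor of a space of polynomials
-/

set_option autoImplicit false

namespace Pool.Agent.HFN

open Polynomial Module

noncomputable section

theorem CPR_unit (E : AA) (h0 : E ≠ 0) (hX : dX E = 0) (hY : dY E = 0) : IsUnit E := by
  have h1 : E = C (E.coeff 0) := eq_C_of_natDegree_eq_zero hY
  rw [h1, dX_C] at hX
  have h2 : E.coeff 0 = C ((E.coeff 0).coeff 0) := eq_C_of_natDegree_eq_zero hX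
  rw [h1, h2]
  apply isUnit_C.2
  apply isUnit_C.2
  apply IsUnit.mk0
  intro h3
  apply h0
  rw [h1, h2, h3, C_0, C_0]

theorem CPR_max (U : Submodule ℂ AA) (f₀ : AA) (hf : f₀ ∈ U) (h0 : f₀ ≠ 0) :
    ∃ B : AA, (∀ f ∈ U, B ∣ f) ∧ ∀ B' : AA, (∀ f ∈ U, B' ∣ f) → dX B' + dY B' ≤ dX B + dY B := by
  classical
  have hb : ∀ B : AA, (∀ f ∈ U, B ∣ f) → dX B + dY B ≤ dX f₀ + dY f₀ := by
    intro B hB
    obtain ⟨g, hg⟩ := hB f₀ hf
    have hB0 : B ≠ 0 := by
      rintro rfl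
      exact h0 (by rw [hg, zero_mul])
    have hg0 : g ≠ 0 := by
      rintro rfl
      exact h0 (by rw [hg, mul_zero])
    rw [hg, dX_mul hB0 hg0, dY_mul hB0 hg0]
    omega
  let P : ℕ → Prop := fun n => ∃ B : AA, (∀ f ∈ U, B ∣ f) ∧ dX B + dY B = n
  have hP0 : P 0 := ⟨1, fun f _ => one_dvd f, by simp⟩
  obtain ⟨B, hB, hBn⟩ : P (Nat.findGreatest P (dX f₀ + dY f₀)) := Nat.findGreatest_spec (Nat.zero_le _) hP0
  refine ⟨B, hB, fun B' hB' => ?_⟩
  rw [hBn]
  exact Nat.le_findGreatest (hb B' hB') ⟨B', hB', rfl⟩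

theorem CPR : CPR_stmt := by
  classical
  intro U p q _ hU
  obtain ⟨f₀, hf, h0⟩ := Submodule.exists_mem_ne_zero_of_ne_bot hU
  obtain ⟨B, hB, hmax⟩ := CPR_max U f₀ hf h0
  obtain ⟨G1, hG1⟩ := hB f₀ hf
  have hB0 : B ≠ 0 := by
    rintro rfl
    exact h0 (by rw [hG1, zero_mul])
  have hG0 : G1 ≠ 0 := by
    rintro rfl
    exact h0 (by rw [hG1, mul_zero])
  let W : Submodule ℂ AA := U.comap (LinearMap.mulLeft ℂ B)
  have hW : ∀ g : AA, g ∈ W ↔ B * g ∈ U := fun g => Iff.rfl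
  have hirr : ∀ E : AA, Irreducible E → ∃ g ∈ W, ¬ E ∣ g := by
    intro E hE
    by_contra hcon
    push Not at hcon
    have hBE : ∀ f ∈ U, B * E ∣ f := by
      intro f hfU
      obtain ⟨g, rfl⟩ := hB f hfU
      exact mul_dvd_mul_left B (hcon g hfU)
    have h1 := hmax (B * E) hBE
    rw [dX_mul hB0 hE.ne_zero, dY_mul hB0 hE.ne_zero] at h1
    exact hE.not_isUnit (CPR_unit E hE.ne_zero (by omega) (by omega))
  let sub : AA → Submodule ℂ W := fun E => ((Ideal.span {E}).restrictScalars ℂ).comap W.subtype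
  have hsub : ∀ (E : AA) (g : W), g ∈ sub E ↔ E ∣ (g : AA) := fun E g => Ideal.mem_span_singleton
  let s : Finset (Submodule ℂ W) := (UniqueFactorizationMonoid.factors G1).toFinset.image sub
  have hs : ⊤ ∉ s := by
    intro htop
    obtain ⟨E, hE, hEt⟩ := Finset.mem_image.1 htop
    have hEi : Irreducible E := UniqueFactorizationMonoid.irreducible_of_factor E (Multiset.mem_toFinset.1 hE)
    obtain ⟨g, hg, hgE⟩ := hirr E hEi
    apply hgE
    have h1 : (⟨g, hg⟩ : W) ∈ sub E := by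
      rw [hEt]
      exact Submodule.mem_top
    exact (hsub E ⟨g, hg⟩).1 h1
  have huni := Subspace.biUnion_ne_univ_of_top_notMem (k := ℂ) (E := W) (s := s) hs
  obtain ⟨g, hg⟩ := (Set.ne_univ_iff_exists_notMem _).1 huni
  refine ⟨B, G1, (g : AA), hB0, hG0, hB, ?_, g.2, ?_⟩
  · rw [← hG1]
    exact hf
  · intro d hd1 hd2
    by_contra hdu
    have hd0 : d ≠ 0 := by
      rintro rfl
      exact hG0 (zero_dvd_iff.1 hd1)
    obtain ⟨P, hP, hPd⟩ := WfDvdMonoid.exists_irreducible_factor hdu hd0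
    obtain ⟨Q, hQ, hPQ⟩ := UniqueFactorizationMonoid.exists_mem_factors_of_dvd hG0 hP (hPd.trans hd1)
    apply hg
    refine Set.mem_iUnion₂.2 ⟨sub Q, Finset.mem_image.2 ⟨Q, Multiset.mem_toFinset.2 hQ, rfl⟩, ?_⟩
    exact (hsub Q g).2 (hPQ.symm.dvd.trans (hPd.trans hd2))

end

end Pool.Agent.HFN
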