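import Pool.Agent.helper78.HFN.Spec

/-!
# Project HFN (MP_3221a1_ag), row LOW: the lower bound (assembly)
-/

set_option autoImplicit false

namespace Pool.Agent.HFN

open Polynomial Module

noncomputable section

theorem LOW_prod (l : List AA) (hl : ∀ E ∈ l, Irreducible E) :
    l.prod ≠ 0 ∧ dX l.prod = (l.map dX).sum ∧ dY l.prod = (l.map dY).sum := by
  induction l with
  | nil => simp
  | cons E l ih =>
    obtain ⟨h1, h2, h3⟩ := ih (fun E' hE' => hl E' (List.mem_cons_of_mem _ hE'))
    have hE : E ≠ 0 := (hl E List.mem_cons_self).ne_zero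
    rw [List.prod_cons, List.map_cons, List.sum_cons, List.map_cons, List.sum_cons]
    refine ⟨mul_ne_zero hE h1, ?_, ?_⟩
    · rw [dX_mul hE h1, h2]
    · rw [dY_mul hE h1, h3]

theorem LOW_ip (i j : ℕ) (l : List AA) : (l.map (ip i j)).sum = i * (l.map dY).sum + j * (l.map dX).sum := by
  induction l with
  | nil => simp
  | cons E l ih =>
    rw [List.map_cons, List.sum_cons, List.map_cons, List.sum_cons, List.map_cons, List.sum_cons, ih]
    unfold ip
    ring

theorem LOW_len (hTYP : TYP_stmt) (l : List AA) (hl : ∀ E ∈ l, Irreducible E) :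
    l.length ≤ (l.map dX).sum + (l.map dY).sum := by
  induction l with
  | nil => simp
  | cons E l ih =>
    have h1 := ih (fun E' hE' => hl E' (List.mem_cons_of_mem _ hE'))
    have h2 := hTYP E (hl E List.mem_cons_self)
    rw [List.length_cons, List.map_cons, List.sum_cons, List.map_cons, List.sum_cons]
    unfold Ty at h2
    omega

theorem LOW_sg (hSNG : SNG_stmt) (Z : Finset (ℂ × ℂ)) (l : List AA) (hl : ∀ E ∈ l, Irreducible E) :
    (l.map (sg Z)).sum ≤ 2 * ((l.map dX).sum * (l.map dY).sum) := by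
  induction l with
  | nil => simp
  | cons E l ih =>
    have h1 := ih (fun E' hE' => hl E' (List.mem_cons_of_mem _ hE'))
    have h2 := hSNG Z E (hl E List.mem_cons_self)
    rw [List.map_cons, List.sum_cons, List.map_cons, List.sum_cons, List.map_cons, List.sum_cons]
    have h3 : 2 * ((dX E + (l.map dX).sum) * (dY E + (l.map dY).sum)) = 2 * (dX E * dY E)
        + 2 * ((l.map dX).sum * (l.map dY).sum) + 2 * (dX E * (l.map dY).sum + (l.map dX).sum * dY E) := by ring
    omega

theorem LOW_res (l : List AA) : ∀ κ : ℂ × ℂ → ℕ, (∀ z, κ z ≤ 2) → ∀ z, l.foldl res κ z ≤ 2 := by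
  induction l with
  | nil => exact fun κ h => h
  | cons E l ih =>
    intro κ h
    rw [List.foldl_cons]
    apply ih
    intro z
    exact le_trans (Nat.sub_le _ _) (h z)

theorem LOW (hCHA : CHA_stmt) (hRSL : RSL_stmt) (hIND : IND_stmt) (hWTL : WTL_stmt) (hSNG : SNG_stmt)
    (hTYP : TYP_stmt) : LOW_stmt := by
  intro Z l hl G1 G2 p q i j hG1 hG2 hrel hV1 hV2 hbi hbj hp hq
  have h2 : ∀ z, two z ≤ 2 := fun _ => le_refl 2
  obtain ⟨-, hX, hY⟩ := LOW_prod l hl
  have e1 := hCHA Z l hl two h2 i j i j (le_refl _) (le_refl _) hbi hbj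
  have e2 := hIND Z (l.foldl res two) (LOW_res l two h2) G1 G2 p q (i - dX l.prod) (j - dY l.prod)
    ((hRSL Z l two h2 G1).2 hG1) ((hRSL Z l two h2 G2).2 hG2) hrel hV1 hV2 (by omega) (by omega)
  have e3 := hWTL Z i j l two h2
  have e4 : Wt Z two = 3 * Z.card := by
    unfold Wt two wt
    simp
    ring
  have e5 := LOW_ip i j l
  have e6 := LOW_len hTYP l hl
  have e7 := LOW_sg hSNG Z l hl
  rw [← hX, ← hY] at e5 e6 e7
  rw [e4, e5] at e3
  generalize dX l.prod = b at *
  generalize dY l.prod = b' at *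
  obtain ⟨u, rfl⟩ := Nat.exists_eq_add_of_le hbi
  obtain ⟨v, rfl⟩ := Nat.exists_eq_add_of_le hbj
  rw [Nat.add_sub_cancel_left, Nat.add_sub_cancel_left] at e1 e2
  have e8 : (u + 1) * (v + 1) + ((b + u) * b' + (b' + v) * b) + (b + b') + 2 * (b * b')
      = (b + u + 1) * (b' + v + 1) + 3 * (b * b') := by ring
  omega

end

end Pool.Agent.HFN
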